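import Pool.Agent.helper76.UF.Spec

/-! Project UF (MP_37e5fa_nt), row TWB: one step down in the tower of powers. -/

set_option autoImplicit false

namespace Pool.Agent.UF

open Finset Polynomial NumberField

private theorem TWB_split {R : Type} [CommRing R] (f : ℕ → R) (M : ℕ) :
    ∑ j ∈ range (2 * M), f j = ∑ l ∈ range M, f (2 * l) + ∑ l ∈ range M, f (2 * l + 1) := by
  induction M with
  | zero => simp
  | succ M ih =>
    rw [show 2 * (M + 1) = 2 * M + 1 + 1 by ring, Finset.sum_range_succ, Finset.sum_range_succ, ih,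
      Finset.sum_range_succ, Finset.sum_range_succ]
    ring

private theorem TWB_two {N : ℕ} {R : Type} [CommRing R] {y : R} (hN : 1 ≤ N) (hB : Bas N y) :
    (2 : R) ≠ 0 := by
  intro h0
  have h1 := hB.2 (fun k => if k = 0 then 2 else 0) (by
    rw [Finset.sum_eq_single_of_mem 0 (Finset.mem_range.2 hN)]
    · rw [if_pos rfl, pow_zero, mul_one]
      push_cast
      exact h0
    · intro k _ hk
      rw [if_neg hk, Int.cast_zero, zero_mul]) 0 hN
  norm_num at h1

private theorem TWB_sum {R : Type} [CommRing R] (s : R ≃+* R) (Z : R) (hZ : s Z = Z) (M : ℕ)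
    (d : ℕ → ℤ) : s (∑ l ∈ range M, (d l : R) * Z ^ l) = ∑ l ∈ range M, (d l : R) * Z ^ l := by
  rw [map_sum]
  refine Finset.sum_congr rfl fun l _ => ?_
  rw [map_mul, map_pow, hZ, map_intCast]

theorem TWB : TWB_stmt := by
  intro κ h R _ _ y hh hC τ hτ ρ hρ hc hd
  obtain ⟨c, hc⟩ := hc
  obtain ⟨i, d, hd⟩ := hd
  obtain ⟨hB, hspan, haut⟩ := hC
  have hyn := hB.1
  obtain ⟨m, rfl⟩ : ∃ m, κ = h + (m + 2) := ⟨κ - h - 2, by omega⟩
  have e1 : h + (m + 2) - h = m + 2 := by omega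
  have e2 : h + (m + 2) - (h + 1) = m + 1 := by omega
  rw [e1] at hτ hd
  rw [e2]
  have h2 : (2 : R) ≠ 0 := TWB_two Nat.one_le_two_pow hB
  have hneg : (-1 : R) ≠ 1 := by
    intro h0
    apply h2
    have : (2 : R) = 1 - (-1) := by ring
    rw [this, h0, sub_self]
  have hord : orderOf y = 2 ^ (h + (m + 2) + 1) := by
    refine orderOf_eq_prime_pow ?_ ?_
    · rw [hyn]; exact hneg
    · rw [pow_succ 2, pow_mul, hyn]; ring
  have hy1 : y ^ (2 ^ (h + (m + 2) + 1)) = 1 := by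
    rw [← hord]; exact pow_orderOf_eq_one y
  have hy0 : y ≠ 0 := by
    intro h0
    rw [h0, zero_pow (by positivity)] at hy1
    exact zero_ne_one hy1
  obtain ⟨Y, hY⟩ : ∃ Y, Y = y ^ (2 ^ h) := ⟨_, rfl⟩
  have hY0 : Y ≠ 0 := by rw [hY]; exact pow_ne_zero _ hy0
  obtain ⟨E, hE⟩ : ∃ E, E = ∑ l ∈ range (2 ^ (m + 1)), (d (2 * l) : R) * (Y ^ 2) ^ l := ⟨_, rfl⟩
  obtain ⟨O, hO⟩ : ∃ O, O = ∑ l ∈ range (2 ^ (m + 1)), (d (2 * l + 1) : R) * (Y ^ 2) ^ l :=
    ⟨_, rfl⟩
  have hP : ∑ j ∈ range (2 ^ (m + 2)), (d j : R) * (y ^ (2 ^ h)) ^ j = E + Y * O := by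
    rw [← hY, pow_succ' 2 (m + 1), TWB_split, hE, hO, Finset.mul_sum]
    congr 1
    · refine Finset.sum_congr rfl fun l _ => ?_
      rw [pow_mul]
    · refine Finset.sum_congr rfl fun l _ => ?_
      rw [pow_succ, pow_mul]
      ring
  rw [hP] at hd
  have hτY : τ Y = -Y := by
    rw [hY, map_pow, hτ, ← pow_mul, add_mul, one_mul, pow_add, ← pow_add 2,
      show m + 2 + h = h + (m + 2) by ring, hyn]
    ring
  have hτE : τ E = E := by
    rw [hE]
    exact TWB_sum τ (Y ^ 2) (by rw [map_pow, hτY]; ring) _ _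
  have hτO : τ O = O := by
    rw [hO]
    exact TWB_sum τ (Y ^ 2) (by rw [map_pow, hτY]; ring) _ _
  have hP0 : E + Y * O ≠ 0 := by
    intro h0
    apply hρ
    rw [hd, h0, mul_zero]
  -- the relation between the two polynomials
  obtain ⟨c', hc'⟩ : ∃ c' : ℕ, E - Y * O = y ^ c' * (E + Y * O) := by
    refine ⟨c + (2 ^ (h + (m + 2) + 1) - 1) * (i * 2 ^ (m + 2)), ?_⟩
    have h3 : y ^ i * (y ^ (i * 2 ^ (m + 2)) * (E - Y * O)) = y ^ i * (y ^ c * (E + Y * O)) := by
      have h4 := hc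
      rw [hd, map_mul, map_pow, hτ, map_add, map_mul, hτE, hτO, hτY] at h4
      rw [← mul_assoc, ← pow_add]
      have h5 : y ^ (i + i * 2 ^ (m + 2)) = (y ^ (1 + 2 ^ (m + 2))) ^ i := by
        rw [← pow_mul]
        congr 1
        ring
      rw [h5]
      have h6 : E - Y * O = E + -Y * O := by ring
      rw [h6, h4]
      ring
    have h4 := mul_left_cancel₀ (pow_ne_zero i hy0) h3
    have h5 : y ^ ((2 ^ (h + (m + 2) + 1) - 1) * (i * 2 ^ (m + 2))) * y ^ (i * 2 ^ (m + 2)) = 1 := by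
      rw [← pow_add]
      have h6 : (2 ^ (h + (m + 2) + 1) - 1) * (i * 2 ^ (m + 2)) + i * 2 ^ (m + 2) =
          2 ^ (h + (m + 2) + 1) * (i * 2 ^ (m + 2)) := by
        have h7 : 1 ≤ 2 ^ (h + (m + 2) + 1) := Nat.one_le_two_pow
        calc (2 ^ (h + (m + 2) + 1) - 1) * (i * 2 ^ (m + 2)) + i * 2 ^ (m + 2)
            = ((2 ^ (h + (m + 2) + 1) - 1) + 1) * (i * 2 ^ (m + 2)) := by ring
          _ = 2 ^ (h + (m + 2) + 1) * (i * 2 ^ (m + 2)) := by rw [Nat.sub_add_cancel h7]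
      rw [h6, pow_mul, hy1, one_pow]
    calc E - Y * O = 1 * (E - Y * O) := by ring
      _ = y ^ ((2 ^ (h + (m + 2) + 1) - 1) * (i * 2 ^ (m + 2))) *
          (y ^ (i * 2 ^ (m + 2)) * (E - Y * O)) := by rw [← h5]; ring
      _ = y ^ (c + (2 ^ (h + (m + 2) + 1) - 1) * (i * 2 ^ (m + 2))) * (E + Y * O) := by
          rw [h4, pow_add]; ring
  -- the exponent is divisible by `2^h`
  have hdiv : 2 ^ h ∣ c' := by
    obtain ⟨σ, hσ⟩ := haut (1 + 2 * 2 ^ (m + 2)) (by
      rw [add_comm]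
      exact ⟨2 ^ (m + 2), rfl⟩)
    have hσY : σ Y = Y := by
      rw [hY, map_pow, hσ, ← pow_mul]
      have h6 : (1 + 2 * 2 ^ (m + 2)) * 2 ^ h = 2 ^ h + 2 ^ (h + (m + 2) + 1) := by ring
      rw [h6, pow_add, hy1, mul_one]
    have hσE : σ E = E := by
      rw [hE]
      exact TWB_sum σ (Y ^ 2) (by rw [map_pow, hσY]) _ _
    have hσO : σ O = O := by
      rw [hO]
      exact TWB_sum σ (Y ^ 2) (by rw [map_pow, hσY]) _ _
    have h3 := congrArg σ hc'
    rw [map_sub, map_mul, map_mul, map_add, map_mul, hσE, hσO, hσY, map_pow, hσ, hc'] at h3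
    have h4 := mul_right_cancel₀ hP0 h3
    have h5 : y ^ c' * 1 = y ^ c' * y ^ (2 * 2 ^ (m + 2) * c') := by
      rw [mul_one, ← pow_add]
      rw [← pow_mul] at h4
      rw [h4]
      congr 1
      ring
    have h6 := mul_left_cancel₀ (pow_ne_zero c' hy0) h5
    have h7 := orderOf_dvd_of_pow_eq_one h6.symm
    rw [hord] at h7
    have h8 : 2 ^ (h + (m + 2) + 1) = 2 * 2 ^ (m + 2) * 2 ^ h := by ring
    rw [h8] at h7
    exact Nat.dvd_of_mul_dvd_mul_left (by positivity) h7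
  obtain ⟨q, hq⟩ := hdiv
  have hcY : y ^ c' = Y ^ q := by rw [hq, pow_mul, hY]
  rw [hcY] at hc'
  have h3 : E + Y * O = (-Y) ^ q * (E - Y * O) := by
    have h4 := congrArg τ hc'
    rw [map_sub, map_mul, map_mul, map_add, map_mul, hτE, hτO, hτY, map_pow, hτY] at h4
    have h5 : E - -Y * O = E + Y * O := by ring
    have h6 : E + -Y * O = E - Y * O := by ring
    rw [h5, h6] at h4
    exact h4
  have h4 : (-Y) ^ q * Y ^ q = 1 := by
    rw [hc', ← mul_assoc] at h3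
    have h5 : 1 * (E + Y * O) = (-Y) ^ q * Y ^ q * (E + Y * O) := by rw [one_mul]; exact h3
    exact (mul_right_cancel₀ hP0 h5).symm
  have hYe : ∀ e : ℕ, Y ^ e = y ^ (2 ^ h * e) := fun e => by rw [hY, pow_mul]
  have hsign : Y ^ q = 1 ∨ Y ^ q = -1 := by
    rcases Nat.even_or_odd q with hev | hodd
    · have h5 : Y ^ (2 * q) = 1 := by
        rw [hev.neg_pow, ← pow_add] at h4
        rw [two_mul]
        exact h4
      rw [hYe] at h5
      have h6 := orderOf_dvd_of_pow_eq_one h5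
      rw [hord] at h6
      have h7 : 2 ^ (h + (m + 2) + 1) = 2 ^ h * (2 * 2 ^ (m + 2)) := by ring
      rw [h7] at h6
      have h8 := Nat.dvd_of_mul_dvd_mul_left (by positivity) h6
      have h9 := Nat.dvd_of_mul_dvd_mul_left (by norm_num) h8
      obtain ⟨t, ht⟩ := h9
      have h10 : Y ^ q = (-1) ^ t := by
        rw [ht, hYe, ← mul_assoc, ← pow_add, pow_mul, hyn]
      rw [h10]
      exact neg_one_pow_eq_or R t
    · exfalso
      rw [hodd.neg_pow, neg_mul, ← pow_add, ← two_mul] at h4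
      have h5 : y ^ (2 ^ h * (2 * q) + 2 ^ (h + (m + 2))) = 1 := by
        rw [pow_add, hyn, ← hYe]
        linear_combination h4
      have h6 := orderOf_dvd_of_pow_eq_one h5
      rw [hord] at h6
      have h7 : 2 ^ (h + (m + 2) + 1) = 2 ^ h * (8 * 2 ^ m) := by ring
      have h8 : 2 ^ h * (2 * q) + 2 ^ (h + (m + 2)) = 2 ^ h * (2 * q + 4 * 2 ^ m) := by ring
      rw [h7, h8] at h6
      have h9 := Nat.dvd_of_mul_dvd_mul_left (by positivity) h6
      obtain ⟨t, ht⟩ := h9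
      obtain ⟨r, hr⟩ := hodd
      have h10 : 8 * 2 ^ m * t = 4 * (2 * (2 ^ m * t)) := by ring
      rw [h10] at ht
      omega
  have hZ : ∀ l : ℕ, (y ^ (2 ^ (h + 1))) ^ l = (Y ^ 2) ^ l := by
    intro l
    have h5 : y ^ (2 ^ (h + 1)) = Y ^ 2 := by
      rw [hY, pow_succ 2 h, pow_mul y]
    rw [h5]
  rcases hsign with h5 | h5
  · -- `O = 0`
    have hO0 : O = 0 := by
      rw [h5, one_mul] at hc'
      have h6 : 2 * Y * O = 0 := by linear_combination -hc'
      exact (mul_eq_zero.1 h6).resolve_left (mul_ne_zero h2 hY0)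
    refine ⟨i, fun l => d (2 * l), ?_⟩
    rw [hd, hO0, mul_zero, add_zero, hE]
    congr 1
    exact Finset.sum_congr rfl fun l _ => by rw [hZ]
  · -- `E = 0`
    have hE0 : E = 0 := by
      rw [h5] at hc'
      have h6 : 2 * E = 0 := by linear_combination hc'
      exact (mul_eq_zero.1 h6).resolve_left h2
    refine ⟨i + 2 ^ h, fun l => d (2 * l + 1), ?_⟩
    have h6 : y ^ (i + 2 ^ h) = y ^ i * Y := by rw [hY, pow_add]
    have h7 : ∑ j ∈ range (2 ^ (m + 1)), ((fun l => d (2 * l + 1)) j : R) * (y ^ (2 ^ (h + 1))) ^ j =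
        O := by
      rw [hO]
      exact Finset.sum_congr rfl fun l _ => by rw [hZ]
    rw [hd, hE0, zero_add, h6, h7, mul_assoc]

end Pool.Agent.UF
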